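import Pool.Agent.Helper8_HK.Stmt3
import Pool.Agent.Helper8_HK.Stmt1

/-! Module BNC of squad HK: doubly cuspidal forms are bounded by a constant over `|z|_i`. -/

set_option autoImplicit false

namespace Pool.Agent.HK.H66

open Polynomial Filter

theorem norm_le_of_hasSum {C : Type} [NormedField C] [IsUltrametricDist C] {g : ℕ → C} {a : C}
    {B : ℝ} (hB : 0 ≤ B) (h : HasSum g a) (hg : ∀ i, ‖g i‖ ≤ B) : ‖a‖ ≤ B := by
  refine le_of_tendsto (h.norm) (Eventually.of_forall fun s => ?_)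
  exact IsUltrametricDist.norm_sum_le_of_forall_le_of_nonneg hB fun i _ => hg i

section

variable {F : Type} [Field F] [Fintype F] {C : Type} [NormedField C]
  [IsAlgClosed C] [CompleteSpace C] [IsUltrametricDist C] (ι : Kinf F →+* C)

/-- boundedness near the cusp and on the compact part for one function -/
theorem bound_one (hok : NormOK ι) (hIMA : IMAStmt) (hHOL : HOLStmt) (hTEX : TEXStmt)
    (hTBB : TBBStmt) {h : C → C} (hh : IsHolo ι h) {b : F[X]} (hb : b ≠ 0) {a : ℕ → C}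
    (h0 : a 0 = 0) (h1 : a 1 = 0) (hexp : HasExp ι 1 b h a) :
    ∃ B : ℝ, ∀ z ∈ Om ι, ‖z‖ = imz ι z → 1 ≤ imz ι z → ‖h z‖ * imz ι z ≤ B := by
  obtain ⟨e, he⟩ := hTEX F C ι hok
  obtain ⟨-, tb2, -, -, tb5⟩ := hTBB F C ι hok e he
  obtain ⟨-, -, -, -, -, -, -, omn, -, -, -⟩ := hIMA F C ι hok
  obtain ⟨R, hR⟩ := hexp
  obtain ⟨z0, hz0, hRz0⟩ := tb5 R
  obtain ⟨-, ht0, -, -⟩ := tb2 b z0 hb hz0
  set r0 : ℝ := ‖tb ι b z0‖ with hr0
  have hr0pos : 0 < r0 := norm_pos_iff.2 ht0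
  -- the terms at z0 are bounded
  have hs0 := hR z0 hz0 hRz0
  have hlim := hs0.summable.tendsto_atTop_zero
  obtain ⟨A0, hA0⟩ := (hlim.norm.bddAbove_range : BddAbove (Set.range fun i =>
    ‖a i * ((1 : C)⁻¹ * tb ι b z0) ^ i‖))
  have hA : ∀ i, ‖a i‖ * r0 ^ i ≤ A0 := by
    intro i
    have := hA0 ⟨i, rfl⟩
    simpa [norm_mul, norm_pow, hr0] using this
  have hA0n : 0 ≤ A0 := le_trans (by positivity) (hA 0)
  set q : ℝ := ((Fintype.card F : ℕ) : ℝ) with hq
  have hq1 : 1 < q := by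
    rw [hq]
    exact_mod_cast Fintype.one_lt_card
  set R1 : ℝ := max R (max r0⁻¹ 1) with hR1
  obtain ⟨N, hN⟩ := pow_unbounded_of_one_lt R1 hq1
  obtain ⟨B1, hB1⟩ := (hHOL F C ι hok h hh).2 N
  refine ⟨max (A0 / r0 ^ 2) (max B1 0 * R1), fun z hz hzi hz1 => ?_⟩
  rcases le_or_gt R1 (imz ι z) with hc | hc
  · refine le_trans ?_ (le_max_left _ _)
    have hRz : R ≤ imz ι z := le_trans (le_max_left _ _) hc
    have hrz : r0⁻¹ ≤ imz ι z := le_trans (le_trans (le_max_left _ _) (le_max_right _ _)) hc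
    obtain ⟨-, -, ht, -⟩ := tb2 b z hb hz
    set t : ℝ := ‖tb ι b z‖ with htdef
    have htn : 0 ≤ t := norm_nonneg _
    have hipos : 0 < imz ι z := lt_of_lt_of_le one_pos hz1
    have ht1 : t ≤ (imz ι z)⁻¹ := by
      rw [← one_div, le_div_iff₀ hipos]
      exact ht
    have hinv : (imz ι z)⁻¹ ≤ r0 := by
      rw [inv_le_comm₀ hipos hr0pos]
      exact hrz
    have htr : t ≤ r0 := ht1.trans hinv
    have hx0 : 0 ≤ t / r0 := by positivity
    have hx1 : t / r0 ≤ 1 := by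
      rw [div_le_one hr0pos]
      exact htr
    have hbd : ‖h z‖ ≤ A0 * (t / r0) ^ 2 := by
      refine norm_le_of_hasSum (by positivity) (hR z hz hRz) fun i => ?_
      rcases i with _ | _ | i
      · rw [h0]; simp; positivity
      · rw [h1]; simp; positivity
      · have e1 : ‖a (i + 2) * ((1 : C)⁻¹ * tb ι b z) ^ (i + 2)‖ = ‖a (i + 2)‖ * t ^ (i + 2) := by
          simp [norm_mul, norm_pow, htdef]
        show ‖a (i + 2) * ((1 : C)⁻¹ * tb ι b z) ^ (i + 2)‖ ≤ _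
        rw [e1]
        have e2 : ‖a (i + 2)‖ * t ^ (i + 2) = (‖a (i + 2)‖ * r0 ^ (i + 2)) * (t / r0) ^ (i + 2) := by
          rw [div_pow, mul_assoc, mul_div_cancel₀ _ (pow_ne_zero _ hr0pos.ne')]
        rw [e2]
        refine mul_le_mul (hA (i + 2)) ?_ (by positivity) hA0n
        exact pow_le_pow_of_le_one hx0 hx1 (by omega)
    calc ‖h z‖ * imz ι z ≤ (A0 * (t / r0) ^ 2) * imz ι z := by gcongr
      _ = A0 / r0 ^ 2 * (t * (t * imz ι z)) := by field_simp
      _ ≤ A0 / r0 ^ 2 * 1 := by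
          have h3 : t * imz ι z ≤ 1 := ht
          have h4 : t ≤ 1 := by
            refine ht1.trans ?_
            exact inv_le_one_of_one_le₀ hz1
          have h5 : t * (t * imz ι z) ≤ 1 * 1 := by
            refine mul_le_mul h4 h3 (by positivity) (by norm_num)
          gcongr
          linarith
      _ = A0 / r0 ^ 2 := mul_one _
  · refine le_trans ?_ (le_max_right _ _)
    have hmem : z ∈ OmN ι N := by
      rw [omn N z]
      refine ⟨hz, ?_, ?_⟩
      · rw [hzi]; linarith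
      · refine le_trans (inv_le_one_of_one_le₀ (one_le_pow₀ hq1.le)) hz1
    have h2 := hB1 z hmem
    have h3 : ‖h z‖ ≤ max B1 0 := h2.trans (le_max_left _ _)
    have h4 : 0 ≤ imz ι z := by linarith
    exact mul_le_mul h3 hc.le h4 (le_max_right _ _)

end

/-- MODULE BNC -/
theorem bnc (hFDM : FDMStmt) (hCOS : COSStmt) (hSLA : SLAStmt) (hHOL : HOLStmt) (hTBB : TBBStmt)
    (hTEX : TEXStmt) (hIMA : IMAStmt) (hMTX : MTXStmt) : BNCStmt := by
  intro F _ _ C _ _ _ _ ι hok n hn hirr f hf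
  classical
  obtain ⟨-, hsla⟩ := hSLA F C ι hok
  obtain ⟨s1, s2, s3, -, s5, -⟩ := hsla f hf.off
  -- every translate of `f` is bounded on the relevant part
  have key : ∀ γ : GLA F, ∃ B : ℝ, ∀ z ∈ Om ι, ‖z‖ = imz ι z → 1 ≤ imz ι z →
      ‖slash ι (toK γ) f z‖ * imz ι z ≤ B := by
    intro γ
    obtain ⟨a, h0, h1, hexp⟩ := hf.cusp γ
    refine bound_one ι hok hIMA hHOL hTEX hTBB ((hHOL F C ι hok f hf.holo).1 _)
      (b := if n ∣ γ 1 0 then 1 else n) ?_ h0 h1 hexp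
    split_ifs
    · exact one_ne_zero
    · exact hn.ne_zero
  choose Bf hBf using key
  -- representatives
  obtain ⟨-, -, -, -, -, -, -, -, -, -, -, tok, mk, -⟩ := hMTX F
  obtain ⟨mat_ent, mat_eta, -⟩ := hMTX F
  have hrep : ∀ x : F[X], ∃ γ : GLA F, (toK γ : GLK F) = mat 0 (-1) 1 (emb F x) := by
    intro x
    obtain ⟨γ, g1, g2, g3, g4⟩ := mk 0 (-1) 1 x (by simp)
    refine ⟨γ, ?_⟩
    have := (mat_eta (toK γ)).1
    rw [this]
    obtain ⟨t1, t2, t3, t4⟩ := tok γ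
    rw [t1, t2, t3, t4, g1, g2, g3, g4]
    simp
  choose ρ hρ using hrep
  have hfin : Set.Finite {x : F[X] | x.degree < n.degree} := by
    have h1 : Finite (Polynomial.degreeLT F n.natDegree) :=
      Finite.of_equiv _ (Polynomial.degreeLTEquiv F n.natDegree).toEquiv.symm
    have h2 : {x : F[X] | x.degree < n.degree} = (Polynomial.degreeLT F n.natDegree : Set F[X]) := by
      ext x
      rw [Set.mem_ofPred_eq, SetLike.mem_coe, Polynomial.mem_degreeLT,
        Polynomial.degree_eq_natDegree hn.ne_zero]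
    rw [h2]
    exact Set.toFinite _
  obtain ⟨M, hM⟩ := (hfin.image fun x => Bf (ρ x)).bddAbove
  refine ⟨max (Bf 1) M, fun z hz => ?_⟩
  obtain ⟨γ, hγ1, hγ2⟩ := hFDM F C ι hok z hz
  set z' : C := mob ι (toK γ) z with hz'
  have hpos : (0 : ℝ) < imz ι z' := lt_of_lt_of_le one_pos hγ2
  -- h = f | gamma^{-1}
  have hOffh : Off ι (slash ι (toK γ⁻¹) f) := s1 _
  have hfh : f = slash ι (toK γ) (slash ι (toK γ⁻¹) f) := by
    rw [← s2, ← map_mul, inv_mul_cancel, map_one, s3]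
  have e1 : ‖f z‖ * imz ι z = ‖slash ι (toK γ⁻¹) f z'‖ * imz ι z' := by
    obtain ⟨-, -, -, -, s5', -⟩ := hsla _ hOffh
    have := s5' (toK γ) z hz
    rw [← hfh] at this
    exact this
  rw [e1]
  have hz'Om : z' ∈ Om ι := by
    intro x hx
    have h1 := ((hIMA F C ι hok).2.2.2.2.1 z').2 x
    rw [← hx, sub_self, norm_zero] at h1
    linarith
  obtain ⟨hrep1, -, -⟩ := hCOS F n hn hirr
  rcases hrep1 γ⁻¹ with hin | ⟨δ, hδ, x, hx, hxe⟩
  · refine le_trans ?_ (le_max_left _ _)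
    rw [hf.modular _ hin]
    have := hBf 1 z' hz'Om hγ1 hγ2
    rwa [map_one, s3] at this
  · refine le_trans ?_ (le_max_right _ _)
    have h2 : slash ι (toK γ⁻¹) f = slash ι (toK (ρ x)) f := by
      rw [hxe, hρ x, s2, hf.modular _ hδ]
    rw [h2]
    exact (hBf (ρ x) z' hz'Om hγ1 hγ2).trans (hM ⟨x, hx, rfl⟩)

end Pool.Agent.HK.H66
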