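import Pool.Agent.Helper8_HK.Stmt3
import Pool.Agent.Helper8_HK.Stmt1

/-! Module RKM of squad HK: the right kernel of the pairing on Drinfeld modular forms is zero. -/

set_option autoImplicit false

namespace Pool.Agent.HK.H66

open Polynomial Filter

/-- MODULE RKM -/
theorem rkm (hHKM : HKMStmt) (hBFI : BFIStmt) (hBTM : BTMStmt) (hRKN : RKNStmt) (hCMF : CMFStmt)
    (hCORE : COREStmt) (hCAU : CAUStmt) (hCUS : CUSStmt) (hBNC : BNCStmt) (hTEX : TEXStmt)
    (hKHA : KHAStmt) (hSLA : SLAStmt) : RKMStmt := by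
  intro F _ _ C _ _ _ _ ι hok n hn hirr hdeg c hc f hf hzero
  classical
  obtain ⟨ρ, hρ⟩ := IsAlgClosed.exists_pow_nat_eq ((ι (unif F))⁻¹) (n := 2) (by norm_num)
  have ctx : Ctx ι ρ := ⟨hok, hρ⟩
  obtain ⟨e, he⟩ := hTEX F C ι hok
  obtain ⟨B, hB⟩ := hBNC F C ι hok n hn hirr f hf
  obtain ⟨hk1, -, -⟩ := hKHA F C ι ρ ctx
  obtain ⟨hharm, -, hinv, hbd⟩ := hk1 f hf.off hf.holo
  have hcusp : Cusp n (kap ι ρ f) := hCUS F C ι ρ ctx n hn hirr f hf
  obtain ⟨-, hsla⟩ := hSLA F C ι hok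
  have hint : ∀ m : F[X], m.Monic →
      IntK (kap ι ρ f) (fun x => (e (ι (emb F m * x))) ^ (Fintype.card F - 1)) = 0 := by
    intro m hm
    obtain ⟨hdc, hkap⟩ := hHKM F C ι ρ ctx n m hn hirr hm f hf
    -- the expansion of `T_m f`
    obtain ⟨a, -, -, ha⟩ := hdc.cusp 1
    have h10 : n ∣ (1 : GLA F) 1 0 := by simp
    rw [if_pos h10, map_one, (hsla _ hdc.off).2.2.1] at ha
    have ha' : HasExp ι c 1 (heckeC ι n m f) (fun i => a i * c ^ i) := by
      obtain ⟨R, hR⟩ := ha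
      refine ⟨R, fun z hz hRz => ?_⟩
      have h1 := hR z hz hRz
      have h2 : (fun i : ℕ => a i * ((1 : C)⁻¹ * tb ι 1 z) ^ i) =
          fun i : ℕ => a i * c ^ i * (c⁻¹ * tb ι 1 z) ^ i := by
        funext i
        rw [inv_one, one_mul, mul_pow, mul_assoc, ← mul_assoc (c ^ i), ← mul_pow,
          mul_inv_cancel₀ hc, one_pow, one_mul]
      rw [h2] at h1
      exact h1
    have h3 := hBFI F C ι ρ ctx n hn hirr _ hdc e he c _ hc ha'
    have h4 := hzero m _ hm ha'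
    rw [h4, hkap] at h3
    have h5 : IntK (hecke n m (kap ι ρ f)) (fun x => (e (ι x)) ^ (Fintype.card F - 1)) = 0 := by
      rcases mul_eq_zero.1 h3.symm with h | h
      · exact absurd h (pow_ne_zero _ hc)
      · exact h
    rw [hBTM F C ι hok (kap ι ρ f) B n m hn.ne_zero hm hharm (hbd B hB) (hinv n hf.modular)
      hcusp.rinf e he] at h5
    exact h5
  have hsum := hRKN F C ι hok (kap ι ρ f) B n hharm (hbd B hB) (hinv n hf.modular) e he hint
  refine (hCAU F C ι ρ ctx f B hf.off hf.holo hB).2 ?_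
  refine hCORE F C n hn hirr hdeg (kap ι ρ f) hcusp fun m hm hmd => ?_
  rw [hCMF F C n m hn.ne_zero hm hmd (kap ι ρ f) hharm (hinv n hf.modular) hcusp.rinf]
  exact hsum m hm hmd

end Pool.Agent.HK.H66
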